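import Mathlib

/-!
# The topology `t_1^Z` on `C(Y, Z)` need not be regular

`Y` is the Arens-Fort space (a countable normal Hausdorff space with a single non-isolated point)
and `Z` is an arbitrary space whose topology is not indiscrete, for instance the discrete
two-point space.  Then `C(Y, Z)` with the topology `t_1^Z` is not regular.
-/

set_option autoImplicit false

open Set Filter Topology

namespace Pool.Agent.Results.MP_150402_gt.ArensFort

universe u v

/-- `O_Z(Y)`: the sets `f ⁻¹ (U)` with `f : Y → Z` continuous and `U` open in `Z`. -/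
def OZ (Y : Type u) (Z : Type v) [TopologicalSpace Y] [TopologicalSpace Z] : Set (Set Y) :=
  {W | ∃ (f : C(Y, Z)) (U : Set Z), IsOpen U ∧ W = f ⁻¹' U}

/-- `H` is a `Z`-Scott open family of open subsets of `Y`. -/
structure IsZScottOpen (Y : Type u) (Z : Type v) [TopologicalSpace Y] [TopologicalSpace Z]
    (H : Set (Set Y)) : Prop where
  /-- `H` consists of open subsets of `Y` -/
  isOpen : ∀ W ∈ H, IsOpen W
  /-- condition (alpha) -/
  alpha : ∀ W ∈ H, W ∈ OZ Y Z → ∀ V : Set Y, IsOpen V → W ⊆ V → V ∈ H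
  /-- condition (beta) -/
  beta : ∀ 𝒲 : Set (Set Y), 𝒲 ⊆ OZ Y Z → ⋃₀ 𝒲 ∈ H → ∃ ℱ : Set (Set Y), ℱ ⊆ 𝒲 ∧ ℱ.Finite ∧ ⋃₀ ℱ ∈ H

/-- The topology `t_1^Z` on `C(Y, Z)`, generated by the sets
`(H, U) = {f | f ⁻¹ (U) ∈ H}` with `H` a `Z`-Scott open family and `U` open in `Z`. -/
@[reducible] def t1Z (Y : Type u) (Z : Type v) [TopologicalSpace Y] [TopologicalSpace Z] :
    TopologicalSpace C(Y, Z) :=
  TopologicalSpace.generateFrom
    {S | ∃ (H : Set (Set Y)) (U : Set Z), IsZScottOpen Y Z H ∧ IsOpen U ∧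
      S = {f : C(Y, Z) | f ⁻¹' U ∈ H}}

/-- The Arens-Fort topology on `Option (ℕ × ℕ)`: a set containing `none` is open iff it contains
all but finitely many points of all but finitely many columns; the points of `ℕ × ℕ` are
isolated. -/
@[reducible] def afTop : TopologicalSpace (Option (ℕ × ℕ)) where
  IsOpen U := none ∈ U → ∀ᶠ n in atTop, ∀ᶠ k in atTop, some (n, k) ∈ U
  isOpen_univ := by
    intro _
    simp
  isOpen_inter := by
    intro s t hs ht h
    filter_upwards [hs h.1, ht h.2] with n h1 h2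
    filter_upwards [h1, h2] with k h3 h4
    exact ⟨h3, h4⟩
  isOpen_sUnion := by
    intro s hs h
    obtain ⟨t, ht, h0⟩ := h
    filter_upwards [hs t ht h0] with n h1
    filter_upwards [h1] with k h2
    exact ⟨t, ht, h2⟩

attribute [local instance] afTop

theorem isOpen_af {U : Set (Option (ℕ × ℕ))} :
    IsOpen U ↔ (none ∈ U → ∀ᶠ n in atTop, ∀ᶠ k in atTop, some (n, k) ∈ U) := Iff.rfl

theorem isOpen_of_none_notMem {U : Set (Option (ℕ × ℕ))} (h : none ∉ U) : IsOpen U :=
  fun h' => absurd h' h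

theorem isClopen_of_none_mem {U : Set (Option (ℕ × ℕ))} (h : none ∈ U) (hU : IsOpen U) :
    IsClopen U :=
  ⟨⟨isOpen_of_none_notMem (by simpa using h)⟩, hU⟩

theorem isClopen_of_finite {U : Set (Option (ℕ × ℕ))} (hf : U.Finite) (h : none ∉ U) :
    IsClopen U := by
  refine ⟨⟨?_⟩, isOpen_of_none_notMem h⟩
  intro _
  have : ∃ N, ∀ n k, some (n, k) ∈ U → n < N := by
    have hb : ((fun x : Option (ℕ × ℕ) => (x.getD (0, 0)).1) '' U).Finite := hf.image _
    obtain ⟨N, hN⟩ := hb.bddAbove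
    refine ⟨N + 1, fun n k h => ?_⟩
    have := hN ⟨some (n, k), h, rfl⟩
    simp at this
    omega
  obtain ⟨N, hN⟩ := this
  filter_upwards [eventually_ge_atTop N] with n hn
  refine Eventually.of_forall fun k hk => ?_
  have := hN n k hk
  omega

instance : T4Space (Option (ℕ × ℕ)) := by
  have : T1Space (Option (ℕ × ℕ)) := by
    refine ⟨fun x => ?_⟩
    cases x with
    | none => exact ⟨isOpen_of_none_notMem (by simp)⟩
    | some p => exact (isClopen_of_finite (finite_singleton _) (by simp)).1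
  have : NormalSpace (Option (ℕ × ℕ)) := by
    refine ⟨fun s t hs ht hst => ?_⟩
    by_cases h : none ∈ s
    · have h' : none ∉ t := fun h' => (Set.disjoint_left.1 hst) h h'
      exact ⟨tᶜ, t, ht.isOpen_compl, isOpen_of_none_notMem h', hst.subset_compl_right,
        subset_rfl, disjoint_compl_left⟩
    · exact ⟨s, sᶜ, isOpen_of_none_notMem h, hs.isOpen_compl, subset_rfl,
        hst.symm.subset_compl_right, disjoint_compl_right⟩
  exact T4Space.mk

section

variable {Z : Type v} [TopologicalSpace Z] (z0 z1 : Z)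

open Classical in
/-- the two-valued map which is `z1` on the clopen set `C` and `z0` off `C` -/
noncomputable def chi (C : Set (Option (ℕ × ℕ))) (hC : IsClopen C) : C(Option (ℕ × ℕ), Z) where
  toFun x := if x ∈ C then z1 else z0
  continuous_toFun := by
    refine ⟨fun U _ => ?_⟩
    by_cases h1 : z1 ∈ U <;> by_cases h0 : z0 ∈ U
    · convert isOpen_univ
      ext x
      by_cases hx : x ∈ C <;> simp [hx, h0, h1]
    · convert hC.2
      ext x
      by_cases hx : x ∈ C <;> simp [hx, h0, h1]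
    · convert hC.1.isOpen_compl
      ext x
      by_cases hx : x ∈ C <;> simp [hx, h0, h1]
    · convert isOpen_empty
      ext x
      by_cases hx : x ∈ C <;> simp [hx, h0, h1]

variable {z0 z1}
variable {C : Set (Option (ℕ × ℕ))} {hC : IsClopen C} {U : Set Z}

theorem chi_preimage_both (h1 : z1 ∈ U) (h0 : z0 ∈ U) : chi z0 z1 C hC ⁻¹' U = univ := by
  ext x
  by_cases hx : x ∈ C <;> simp [chi, hx, h0, h1]

theorem chi_preimage_one (h1 : z1 ∈ U) (h0 : z0 ∉ U) : chi z0 z1 C hC ⁻¹' U = C := by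
  ext x
  by_cases hx : x ∈ C <;> simp [chi, hx, h0, h1]

theorem chi_preimage_zero (h1 : z1 ∉ U) (h0 : z0 ∈ U) : chi z0 z1 C hC ⁻¹' U = Cᶜ := by
  ext x
  by_cases hx : x ∈ C <;> simp [chi, hx, h0, h1]

theorem chi_preimage_none (h1 : z1 ∉ U) (h0 : z0 ∉ U) : chi z0 z1 C hC ⁻¹' U = ∅ := by
  ext x
  by_cases hx : x ∈ C <;> simp [chi, hx, h0, h1]

theorem isOpen_of_mem_OZ {Y : Type u} [TopologicalSpace Y] {W : Set Y} (h : W ∈ OZ Y Z) :
    IsOpen W := by
  obtain ⟨f, U, hU, rfl⟩ := h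
  exact hU.preimage f.continuous

/-- clopen sets lie in `O_Z(Y)` as soon as `Z` is not indiscrete -/
theorem mem_OZ_of_isClopen (hU : IsOpen U) (h1 : z1 ∈ U) (h0 : z0 ∉ U) (hC : IsClopen C) :
    C ∈ OZ (Option (ℕ × ℕ)) Z :=
  ⟨chi z0 z1 C hC, U, hU, (chi_preimage_one h1 h0).symm⟩

/-- the family of open sets containing `none` and meeting every column -/
def G : Set (Set (Option (ℕ × ℕ))) :=
  {A | IsOpen A ∧ none ∈ A ∧ ∀ n, ∃ k, some (n, k) ∈ A}

theorem G_isZScottOpen : IsZScottOpen (Option (ℕ × ℕ)) Z G where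
  isOpen W hW := hW.1
  alpha W hW _ V hV hWV :=
    ⟨hV, hWV hW.2.1, fun n => (hW.2.2 n).imp fun _ hk => hWV hk⟩
  beta 𝒲 h𝒲 hG := by
    obtain ⟨-, ⟨W0, hW0, h0⟩, hcol⟩ := hG
    have hopen : IsOpen W0 := isOpen_of_mem_OZ (h𝒲 hW0)
    obtain ⟨N, hN⟩ := eventually_atTop.1 (hopen h0)
    choose k hk using hcol
    choose W hW hkW using hk
    refine ⟨insert W0 (W '' Set.Iio N), ?_, ?_, ?_, ?_, ?_⟩
    · rintro V (rfl | ⟨n, -, rfl⟩)
      · exact hW0
      · exact hW n
    · exact ((Set.finite_Iio N).image _).insert _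
    · refine isOpen_sUnion ?_
      rintro V (rfl | ⟨n, -, rfl⟩)
      · exact hopen
      · exact isOpen_of_mem_OZ (h𝒲 (hW n))
    · exact ⟨W0, Or.inl rfl, h0⟩
    · intro n
      by_cases hn : n < N
      · exact ⟨k n, W n, Or.inr ⟨n, hn, rfl⟩, hkW n⟩
      · obtain ⟨k', hk'⟩ := (hN n (by omega)).exists
        exact ⟨k', W0, Or.inl rfl, hk'⟩

/-- basic neighbourhoods of the constant map `z1` -/
theorem nhd_one {U₀ : Set Z} (hU₀ : IsOpen U₀) (hz1 : z1 ∈ U₀) (hz0 : z0 ∉ U₀)
    (W : Set (Option (ℕ × ℕ))) (hW : IsClopen W)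
    (hW0 : none ∈ W) (T : Set C(Option (ℕ × ℕ), Z)) (hT : IsOpen[t1Z _ _] T)
    (h1T : chi z0 z1 univ isClopen_univ ∈ T) :
    ∃ S : Set (Option (ℕ × ℕ)), S.Finite ∧ none ∉ S ∧
      ∀ (C : Set (Option (ℕ × ℕ))) (hC : IsClopen C), W ∪ S ⊆ C → chi z0 z1 C hC ∈ T := by
  induction hT with
  | basic s hs =>
    obtain ⟨H, U, hH, hU, rfl⟩ := hs
    by_cases h1 : z1 ∈ U
    · have huniv : (univ : Set (Option (ℕ × ℕ))) ∈ H := by
        have : chi z0 z1 univ isClopen_univ ⁻¹' U ∈ H := h1T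
        by_cases h0 : z0 ∈ U
        · rwa [chi_preimage_both h1 h0] at this
        · rwa [chi_preimage_one h1 h0] at this
      -- cover of the whole space by `W` and the isolated points
      have hcov : ⋃₀ (insert W (range fun p : ℕ × ℕ => ({some p} : Set (Option (ℕ × ℕ))))) ∈ H := by
        convert huniv
        rw [eq_univ_iff_forall]
        intro x
        cases x with
        | none => exact ⟨W, Or.inl rfl, hW0⟩
        | some p => exact ⟨{some p}, Or.inr ⟨p, rfl⟩, rfl⟩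
      obtain ⟨ℱ, hℱ, hfin, hmem⟩ := hH.beta _ (by
        rintro V (rfl | ⟨p, rfl⟩)
        · exact mem_OZ_of_isClopen hU₀ hz1 hz0 hW
        · exact mem_OZ_of_isClopen hU₀ hz1 hz0
            (isClopen_of_finite (finite_singleton _) (by simp))) hcov
      refine ⟨⋃₀ (ℱ ∩ (range fun p : ℕ × ℕ => ({some p} : Set (Option (ℕ × ℕ))))), ?_, ?_, ?_⟩
      · refine (hfin.subset inter_subset_left).sUnion ?_
        rintro V ⟨-, p, rfl⟩
        exact finite_singleton _
      · rintro ⟨V, ⟨-, p, rfl⟩, h⟩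
        simp at h
      · intro C hC hWC
        have hsub : ⋃₀ ℱ ⊆ C := by
          rintro x ⟨V, hV, hx⟩
          rcases hℱ hV with rfl | ⟨p, rfl⟩
          · exact hWC (Or.inl hx)
          · exact hWC (Or.inr ⟨_, ⟨hV, p, rfl⟩, hx⟩)
        have hclopen : IsClopen (⋃₀ ℱ) := by
          rw [sUnion_eq_biUnion]
          refine hfin.isClopen_biUnion ?_
          intro V hV
          rcases hℱ hV with rfl | ⟨p, rfl⟩
          · exact hW
          · exact isClopen_of_finite (finite_singleton _) (by simp)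
        have hOZ := mem_OZ_of_isClopen hU₀ hz1 hz0 hclopen
        by_cases h0 : z0 ∈ U
        · change chi z0 z1 C hC ⁻¹' U ∈ H
          rw [chi_preimage_both h1 h0]
          exact huniv
        · change chi z0 z1 C hC ⁻¹' U ∈ H
          rw [chi_preimage_one h1 h0]
          exact hH.alpha _ hmem hOZ C hC.2 hsub
    · refine ⟨∅, finite_empty, by simp, ?_⟩
      intro C hC _
      have hempty : (∅ : Set (Option (ℕ × ℕ))) ∈ H := by
        have : chi z0 z1 univ isClopen_univ ⁻¹' U ∈ H := h1T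
        by_cases h0 : z0 ∈ U
        · rwa [chi_preimage_zero h1 h0, compl_univ] at this
        · rwa [chi_preimage_none h1 h0] at this
      exact hH.alpha _ hempty (mem_OZ_of_isClopen hU₀ hz1 hz0 isClopen_empty) _
        (hU.preimage (chi z0 z1 C hC).continuous) (empty_subset _)
  | univ => exact ⟨∅, finite_empty, by simp, fun C hC _ => mem_univ _⟩
  | inter s t _ _ ihs iht =>
    obtain ⟨S1, hS1, hn1, h1⟩ := ihs h1T.1
    obtain ⟨S2, hS2, hn2, h2⟩ := iht h1T.2
    refine ⟨S1 ∪ S2, hS1.union hS2, by simp [hn1, hn2], fun C hC hsub => ⟨h1 C hC ?_, h2 C hC ?_⟩⟩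
    · exact (union_subset_union_right _ subset_union_left).trans hsub
    · exact (union_subset_union_right _ subset_union_right).trans hsub
  | sUnion 𝒮 _ ih =>
    obtain ⟨T, hT, hmem⟩ := h1T
    obtain ⟨S, hS, hn, h⟩ := ih T hT hmem
    exact ⟨S, hS, hn, fun C hC hsub => ⟨T, hT, h C hC hsub⟩⟩

/-- the complement of the `n`-th column -/
def B (n : ℕ) : Set (Option (ℕ × ℕ)) := {x | ∀ k, x ≠ some (n, k)}

theorem none_mem_B (n : ℕ) : none ∈ B n := by
  intro k
  simp

theorem isClopen_B (n : ℕ) : IsClopen (B n) := by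
  refine isClopen_of_none_mem (none_mem_B n) ?_
  intro _
  filter_upwards [eventually_gt_atTop n] with m hm
  refine Eventually.of_forall fun k k' h => ?_
  simp at h
  omega

theorem compl_B (n : ℕ) : (B n)ᶜ = ⋃₀ (range fun k : ℕ => ({some (n, k)} : Set (Option (ℕ × ℕ)))) := by
  ext x
  simp [B, eq_comm]

/-- basic neighbourhoods of the map which is `z1` off the `n`-th column and `z0` on it -/
theorem nhd_B {U₀ : Set Z} (hU₀ : IsOpen U₀) (hz1 : z1 ∈ U₀) (hz0 : z0 ∉ U₀) (n : ℕ)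
    (T : Set C(Option (ℕ × ℕ), Z)) (hT : IsOpen[t1Z _ _] T)
    (hBT : chi z0 z1 (B n) (isClopen_B n) ∈ T) :
    ∃ E : Set (Option (ℕ × ℕ)), E.Finite ∧ E ⊆ (B n)ᶜ ∧
      ∀ (C : Set (Option (ℕ × ℕ))) (hC : IsClopen C), B n ⊆ C → Disjoint C E →
        chi z0 z1 C hC ∈ T := by
  induction hT with
  | basic s hs =>
    obtain ⟨H, U, hH, hU, rfl⟩ := hs
    have hmem : chi z0 z1 (B n) (isClopen_B n) ⁻¹' U ∈ H := hBT
    by_cases h1 : z1 ∈ U
    · refine ⟨∅, finite_empty, empty_subset _, fun C hC hsub _ => ?_⟩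
      change chi z0 z1 C hC ⁻¹' U ∈ H
      by_cases h0 : z0 ∈ U
      · rw [chi_preimage_both h1 h0] at hmem ⊢
        exact hmem
      · rw [chi_preimage_one h1 h0] at hmem ⊢
        exact hH.alpha _ hmem (mem_OZ_of_isClopen hU₀ hz1 hz0 (isClopen_B n)) C hC.2 hsub
    · by_cases h0 : z0 ∈ U
      · rw [chi_preimage_zero h1 h0, compl_B] at hmem
        obtain ⟨ℱ, hℱ, hfin, hmem'⟩ := hH.beta _ (by
          rintro V ⟨p, rfl⟩
          exact mem_OZ_of_isClopen hU₀ hz1 hz0
              (isClopen_of_finite (finite_singleton _) (by simp))) hmem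
        have hf : (⋃₀ ℱ).Finite := by
          refine hfin.sUnion ?_
          intro V hV
          obtain ⟨p, rfl⟩ := hℱ hV
          exact finite_singleton _
        have hsubB : ⋃₀ ℱ ⊆ (B n)ᶜ := by
          rw [compl_B]
          exact sUnion_subset_sUnion hℱ
        refine ⟨⋃₀ ℱ, hf, hsubB, fun C hC _ hdisj => ?_⟩
        change chi z0 z1 C hC ⁻¹' U ∈ H
        rw [chi_preimage_zero h1 h0]
        refine hH.alpha _ hmem' (mem_OZ_of_isClopen hU₀ hz1 hz0
          (isClopen_of_finite hf ?_)) _ hC.1.isOpen_compl hdisj.symm.subset_compl_right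
        intro hnone
        exact hsubB hnone (none_mem_B n)
      · refine ⟨∅, finite_empty, empty_subset _, fun C hC hsub _ => ?_⟩
        change chi z0 z1 C hC ⁻¹' U ∈ H
        rw [chi_preimage_none h1 h0] at hmem ⊢
        exact hmem
  | univ => exact ⟨∅, finite_empty, empty_subset _, fun C hC _ _ => mem_univ _⟩
  | inter s t _ _ ihs iht =>
    obtain ⟨S1, hS1, hn1, h1⟩ := ihs hBT.1
    obtain ⟨S2, hS2, hn2, h2⟩ := iht hBT.2
    refine ⟨S1 ∪ S2, hS1.union hS2, union_subset hn1 hn2, fun C hC hsub hd => ?_⟩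
    rw [disjoint_union_right] at hd
    exact ⟨h1 C hC hsub hd.1, h2 C hC hsub hd.2⟩
  | sUnion 𝒮 _ ih =>
    obtain ⟨T, hT, hmem⟩ := hBT
    obtain ⟨S, hS, hn, h⟩ := ih T hT hmem
    exact ⟨S, hS, hn, fun C hC hsub hd => ⟨T, hT, h C hC hsub hd⟩⟩

theorem not_regular {U₀ : Set Z} (hU₀ : IsOpen U₀) (hz1 : z1 ∈ U₀) (hz0 : z0 ∉ U₀) :
    ¬ @RegularSpace C(Option (ℕ × ℕ), Z) (t1Z _ _) := by
  intro hreg
  letI := t1Z (Option (ℕ × ℕ)) Z
  have : RegularSpace C(Option (ℕ × ℕ), Z) := hreg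
  set O : Set C(Option (ℕ × ℕ), Z) := {f | f ⁻¹' U₀ ∈ G} with hO
  have hOopen : IsOpen O :=
    TopologicalSpace.GenerateOpen.basic _ ⟨G, U₀, G_isZScottOpen, hU₀, rfl⟩
  have h1O : chi z0 z1 univ isClopen_univ ∈ O := by
    change chi z0 z1 univ isClopen_univ ⁻¹' U₀ ∈ G
    rw [chi_preimage_one hz1 hz0]
    exact ⟨isOpen_univ, mem_univ _, fun n => ⟨0, mem_univ _⟩⟩
  obtain ⟨t, ht, htc, htO⟩ := exists_mem_nhds_isClosed_subset (hOopen.mem_nhds h1O)
  have hBt : ∀ n, chi z0 z1 (B n) (isClopen_B n) ∈ tᶜ := by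
    intro n hn
    have : chi z0 z1 (B n) (isClopen_B n) ⁻¹' U₀ ∈ G := htO hn
    rw [chi_preimage_one hz1 hz0] at this
    obtain ⟨k, hk⟩ := this.2.2 n
    exact hk k rfl
  choose E hEfin hEsub hE using fun n => nhd_B hU₀ hz1 hz0 n tᶜ htc.isOpen_compl (hBt n)
  set W : Set (Option (ℕ × ℕ)) := {x | ∀ n, ∀ k, x = some (n, k) → ∀ k', some (n, k') ∈ E n → k' < k}
    with hWdef
  have hWnone : none ∈ W := by
    intro n k h
    simp at h
  have hWclopen : IsClopen W := by
    refine isClopen_of_none_mem hWnone ?_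
    intro _
    refine Eventually.of_forall fun n => ?_
    have hb : ((fun x : Option (ℕ × ℕ) => (x.getD (0, 0)).2) '' E n).Finite := (hEfin n).image _
    obtain ⟨K, hK⟩ := hb.bddAbove
    filter_upwards [eventually_gt_atTop K] with k hk
    intro n' k'' h k' hk'
    simp only [Option.some.injEq, Prod.mk.injEq] at h
    obtain ⟨rfl, rfl⟩ := h
    have := hK ⟨some (n, k'), hk', rfl⟩
    simp at this
    omega
  obtain ⟨S, hSfin, hSnone, hS⟩ := nhd_one hU₀ hz1 hz0 W hWclopen hWnone (interior t)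
    isOpen_interior (mem_interior_iff_mem_nhds.2 ht)
  obtain ⟨n, hn⟩ : ∃ n, ∀ k, some (n, k) ∉ S := by
    have hb : ((fun x : Option (ℕ × ℕ) => (x.getD (0, 0)).1) '' S).Finite := hSfin.image _
    obtain ⟨N, hN⟩ := hb.bddAbove
    refine ⟨N + 1, fun k hk => ?_⟩
    have := hN ⟨some (N + 1, k), hk, rfl⟩
    simp at this
  have hCclopen : IsClopen (W ∪ S ∪ B n) :=
    (hWclopen.union (isClopen_of_finite hSfin hSnone)).union (isClopen_B n)
  have h1 : chi z0 z1 _ hCclopen ∈ interior t := hS _ hCclopen subset_union_left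
  have h2 : chi z0 z1 _ hCclopen ∈ tᶜ := by
    refine hE n _ hCclopen subset_union_right ?_
    rw [Set.disjoint_left]
    rintro x ((hx | hx) | hx) hxE
    · have hxB := hEsub n hxE
      simp only [B, mem_compl_iff, mem_ofPred_eq, not_forall, not_not] at hxB
      obtain ⟨k, rfl⟩ := hxB
      exact absurd (hx n k rfl k hxE) (lt_irrefl _)
    · have hxB := hEsub n hxE
      simp only [B, mem_compl_iff, mem_ofPred_eq, not_forall, not_not] at hxB
      obtain ⟨k, rfl⟩ := hxB
      exact hn k hx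
    · exact hEsub n hxE hx
  exact h2 (interior_subset h1)

end

/-- **Negative answer to Q1.**  There is a countable normal Hausdorff space `Y` (the Arens-Fort
space) such that for every topological space `Z` whose topology is not indiscrete (for instance
the discrete two-point space, or the real line), the space `C(Y, Z)` with the topology `t_1^Z`
is not regular. -/
theorem result : ∃ (Y : Type) (_ : TopologicalSpace Y), Countable Y ∧ T4Space Y ∧
    ∀ (Z : Type v) [TopologicalSpace Z], (∃ U : Set Z, IsOpen U ∧ U ≠ ∅ ∧ U ≠ Set.univ) →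
      ¬ @RegularSpace C(Y, Z) (t1Z Y Z) := by
  refine ⟨Option (ℕ × ℕ), afTop, inferInstance, inferInstance, ?_⟩
  rintro Z _ ⟨U, hU, hne, hnu⟩
  obtain ⟨z1, h1⟩ := Set.nonempty_iff_ne_empty.2 hne
  obtain ⟨z0, h0⟩ := (Set.ne_univ_iff_exists_notMem U).1 hnu
  exact not_regular (z0 := z0) (z1 := z1) hU h1 h0

end Pool.Agent.Results.MP_150402_gt.ArensFort
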